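import Pool.Agent.H.MP_54ee58_lc.Defs
import Pool.Agent.Lib.helper25.RelGr

namespace Pool.Agent.H.MP_54ee58_lc

open Pool.Agent.Lib.CX Finset

variable {V : Type} [Fintype V]

abbrev W := ℕ × ℕ × ℕ

def In (n k b : ℕ) (p : W) : Prop :=
  (p.1 = 0 ∧ p.2.1 < k ∧ p.2.2 < n) ∨ (p.2.2 = 0 ∧ ((p.1 = 1 ∧ p.2.1 < 2) ∨ (p.1 = 2 ∧ p.2.1 + b < k + 2) ∨
    (p.1 = 3 ∧ b = 1 ∧ p.2.1 < k + 1) ∨ (p.1 = 4 ∧ p.2.1 < k + 5)))
def R (a : Gr) (p q : W) : Prop :=
  (p.1 ≠ q.1 ∧ (2 ≤ p.1 ∨ 2 ≤ q.1)) ∨ (p.1 = 4 ∧ q.1 = 4) ∨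
    (p.1 = 0 ∧ q.1 = 0 ∧ (p.2.1 = q.2.1 ∨ p.2.2 = q.2.2 ∨ a.adjB p.2.2 q.2.2 = true))
instance (n k b p) : Decidable (In n k b p) := by unfold In; infer_instance
instance (a p q) : Decidable (R a p q) := by unfold R; infer_instance
def vs (b : ℕ) (a : Gr × ℕ) : List W :=
  (List.range 5 ×ˢ List.range (a.1.n + 6) ×ˢ List.range (a.1.n + 1)).filter fun p => In a.1.n (min a.2 (a.1.n + 1)) b p
def gr (b : ℕ) (a : Gr × ℕ) : Gr := relGr (vs b a) fun e => R a.1 e.1 e.2

theorem mem_vs {b a} {p : W} : p ∈ vs b a ↔ In a.1.n (min a.2 (a.1.n + 1)) b p := by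
  obtain ⟨x, y, z⟩ := p
  simp only [vs, List.mem_filter, decide_eq_true_eq, and_iff_right_iff_imp, In]
  exact fun h => List.pair_mem_product.2 ⟨List.mem_range.2 (by omega),
    List.pair_mem_product.2 ⟨List.mem_range.2 (by omega), List.mem_range.2 (by omega)⟩⟩

theorem R_symm {a p q} (h : R a p q) : R a q p := by
  simp only [R, Gr.adjB, decide_eq_true_eq] at h ⊢
  tauto

theorem main (a : Gr) (k b : ℕ) (hb : b ≤ 1) (G : SimpleGraph V) (g : V → W) (hg : Function.Injective g)
    (hT : ∀ p, In a.n k b p ↔ ∃ u, g u = p) (hA : ∀ u v, G.Adj u v ↔ u ≠ v ∧ R a (g u) (g v)) :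
    (IndepP (a, k) ↔ b = 0) ↔ core G = nucleus G := by
  classical
  have hT' : ∀ u, In a.n k b (g u) := fun u => (hT _).2 ⟨u, rfl⟩
  have : Nonempty V := ⟨((hT (1, 0, 0)).1 (by simp [In])).choose⟩
  choose! s hs using fun p => (hT p).1
  have ind : ∀ t : Finset V, G.IsIndepSet t ↔ ∀ u ∈ t, ∀ v ∈ t, u ≠ v → ¬R a (g u) (g v) := fun t =>
    ⟨fun h u hu v hv n r => h hu hv n ((hA u v).2 ⟨n, r⟩), fun h u hu v hv n r => h u hu v hv n ((hA u v).1 r).2⟩
  have cle : ∀ (t : Finset V) (f : W → ℕ) (m : ℕ), (∀ u ∈ t, f (g u) < m) →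
      (∀ u ∈ t, ∀ v ∈ t, f (g u) = f (g v) → g u = g v) → t.card ≤ m := fun t f m h1 h2 => by
    rw [← card_range m]
    exact card_le_card_of_injOn (fun u => f (g u)) (fun u hu => by simpa using h1 u hu)
      fun u hu v hv e => hg (h2 u hu v hv e)
  have cge : ∀ (t : Finset V) (j m : ℕ), (∀ i < m, In a.n k b (j, i, 0)) → (∀ u, (g u).1 = j → u ∈ t) →
      m ≤ t.card := fun t j m h1 h2 => by
    rw [← card_range m]
    refine card_le_card_of_injOn (fun i => s (j, i, 0)) (fun i hi => h2 _ ?_) fun i hi l hl e => ?_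
    · rw [hs _ (h1 i (by simpa using hi))]
    · have := congrArg g e
      simp only [hs _ (h1 i (by simpa using hi)), hs _ (h1 l (by simpa using hl))] at this
      simpa using this
  have F2 : ∀ t : Finset V, G.IsIndepSet t → (∀ u ∈ t, (g u).1 ≤ 1) →
      t.card ≤ k + 2 ∧ (k + 2 ≤ t.card → IndepP (a, k) ∧ s (1, 0, 0) ∈ t) := fun t ht h1 => by
    rw [ind] at ht
    have c0 := card_filter_add_card_filter_not (s := t) fun u => (g u).1 = 0
    have c1 : (t.filter fun u => (g u).1 = 0).card ≤ k := cle _ (fun p => p.2.1) k (fun u hu => by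
      have := hT' u; have := (mem_filter.1 hu).2; simp only [In] at *; omega) fun u hu v hv e => by
      by_contra n
      exact ht u (mem_filter.1 hu).1 v (mem_filter.1 hv).1 (fun e => n (by rw [e]))
        (.inr (.inr ⟨(mem_filter.1 hu).2, (mem_filter.1 hv).2, .inl e⟩))
    have c2 : ∀ m, (∀ u ∈ t, (g u).1 = 1 → 2 - (g u).2.1 ≤ m) → (t.filter fun u => ¬(g u).1 = 0).card ≤ m := fun m hm =>
      cle _ (fun p => 1 - p.2.1) m (fun u hu => by
        have := hT' u; have := (mem_filter.1 hu).2; have := h1 u (mem_filter.1 hu).1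
        have := hm u (mem_filter.1 hu).1; simp only [In] at *; omega) fun u hu v hv e => by
        have := hT' u; have := (mem_filter.1 hu).2; have := h1 u (mem_filter.1 hu).1
        have := hT' v; have := (mem_filter.1 hv).2; have := h1 v (mem_filter.1 hv).1
        simp only [In, Prod.ext_iff] at *; omega
    have c3 := c2 2 fun _ _ _ => by omega
    refine ⟨by omega, fun h => ⟨?_, by_contra fun n => ?_⟩⟩
    · have lt : ∀ u ∈ t.filter fun u => (g u).1 = 0, (g u).2.2 < a.n := fun u hu => by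
        have := hT' u; have := (mem_filter.1 hu).2; simp only [In] at *; omega
      refine ⟨univ.filter fun i => ∃ u ∈ t.filter fun u => (g u).1 = 0, (g u).2.2 = i.1, ?_, ?_⟩
      · intro i hi j hj n e
        obtain ⟨u, hu, e1⟩ := (mem_filter.1 hi).2
        obtain ⟨v, hv, e2⟩ := (mem_filter.1 hj).2
        refine ht u (mem_filter.1 hu).1 v (mem_filter.1 hv).1 ?_
          (.inr (.inr ⟨(mem_filter.1 hu).2, (mem_filter.1 hv).2, .inr (.inr ?_)⟩))
        · rintro rfl; exact n (Fin.ext (e1.symm.trans e2))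
        · rw [e1, e2]; exact (a.adjB_iff i j).2 e
      · refine le_trans (show k ≤ (t.filter fun u => (g u).1 = 0).attach.card by rw [card_attach]; omega)
          (card_le_card_of_injOn (fun u => ⟨(g u.1).2.2, lt _ u.2⟩) (fun u _ => ?_) fun u _ v _ e => ?_)
        · exact mem_coe.2 (mem_filter.2 ⟨mem_univ _, u.1, u.2, rfl⟩)
        · by_contra n
          exact ht u (mem_filter.1 u.2).1 v (mem_filter.1 v.2).1 (fun e => n (Subtype.ext e))
            (.inr (.inr ⟨(mem_filter.1 u.2).2, (mem_filter.1 v.2).2, .inr (.inl (by simpa using e))⟩))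
    · have := c2 1 fun u hu e => by_contra fun q => n (by
        have : g u = (1, 0, 0) := by have := hT' u; simp only [In, Prod.ext_iff] at *; omega
        rwa [← this, show s (g u) = u from hg (hs _ (hT' u))])
      omega
  have F3 : ∀ t : Finset V, G.IsIndepSet t → ¬(∀ u ∈ t, (g u).1 ≤ 1) →
      t.card + b ≤ k + 2 ∧ (b = 0 → 2 ≤ t.card → ∀ u ∈ t, (g u).1 = 2) := fun t ht h1 => by
    rw [ind] at ht
    push Not at h1
    obtain ⟨w, hw, h1⟩ := h1
    have sm : ∀ u ∈ t, (g u).1 = (g w).1 := fun u hu => by_contra fun n =>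
      ht u hu w hw (fun e => n (by rw [e])) (.inl ⟨n, .inr h1⟩)
    by_cases q : (g w).1 = 4
    · have : t.card ≤ 1 := card_le_one.2 fun u hu v hv => by_contra fun n =>
        ht u hu v hv n (.inr (.inl ⟨(sm u hu).trans q, (sm v hv).trans q⟩))
      exact ⟨by omega, by omega⟩
    · have := cle t (fun p => p.2.1) (k + 2 - b) (fun u hu => by
        have := hT' u; have := sm u hu; simp only [In] at *; omega) fun u hu v hv e => by
        have := hT' u; have := sm u hu; have := hT' v; have := sm v hv; simp only [In, Prod.ext_iff] at *; omega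
      exact ⟨by omega, fun b0 _ u hu => by have := hT' u; have := sm u hu; simp only [In] at *; omega⟩
  have F0 : ∀ t : Finset V, G.IsIndepSet t → t.card ≤ k + 2 := fun t ht => by
    by_cases h : ∀ u ∈ t, (g u).1 ≤ 1
    · exact (F2 t ht h).1
    · have := (F3 t ht h).1; omega
  have F4 : ∀ j, j = 2 ∨ j = 3 → G.IsIndepSet (univ.filter fun u => (g u).1 = j : Finset V) := fun j hj =>
    (ind _).2 fun u hu v hv _ r => by
      have := (mem_filter.1 hu).2; have := (mem_filter.1 hv).2; simp only [R] at r; omega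
  have F5 : k + 2 - b ≤ (univ.filter fun u => (g u).1 = 2).card :=
    cge _ 2 _ (fun i hi => by simp [In]; omega) (by simp)
  have F1 : IndepP (a, k) → ∃ t : Finset V, G.IsIndepSet t ∧ (∀ u ∈ t, (g u).1 ≤ 1) ∧ k + 2 ≤ t.card := by
    rintro ⟨t, h1, h2⟩
    obtain ⟨f⟩ : Nonempty (Fin k ↪ t) := Function.Embedding.nonempty_of_card_le (by simpa using h2)
    let h : ℕ → W := fun i => if e : i < k then (0, i, (f ⟨i, e⟩).1.1) else (1, i - k, 0)
    have hh : ∀ i < k + 2, In a.n k b (h i) := fun i hi => by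
      simp only [h]; split
      · exact .inl ⟨rfl, ‹_›, Fin.is_lt _⟩
      · simp [In]; omega
    have hi : ∀ i j, h i = h j → i = j := fun i j e => by
      simp only [h] at e; split at e <;> split at e <;> simp only [Prod.mk.injEq] at e <;> omega
    refine ⟨(range (k + 2)).image fun i => s (h i), (ind _).2 ?_, ?_, ?_⟩
    · simp only [forall_mem_image, mem_range]
      intro i h3 j h4 n r
      rw [hs _ (hh i h3), hs _ (hh j h4)] at r
      have n' : i ≠ j := by rintro rfl; exact n rfl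
      simp only [h, R] at r
      split at r <;> split at r <;> simp only at r <;> try omega
      rename_i p q
      have n2 : f ⟨i, p⟩ ≠ f ⟨j, q⟩ := f.injective.ne (by simpa using n')
      have n3 : (f ⟨i, p⟩).1 ≠ (f ⟨j, q⟩).1 := fun e => n2 (Subtype.ext e)
      rcases r with r | r | ⟨-, -, r | r | r⟩ <;> try omega
      exact h1 (f _).2 (f _).2 n3 ((a.adjB_iff _ _).1 r)
    · simp only [forall_mem_image, mem_range]
      intro i h3
      rw [hs _ (hh i h3)]
      simp only [h]; split <;> simp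
    · rw [card_image_of_injOn, card_range]
      intro i h3 j h4 e
      have := congrArg g e
      simp only [hs _ (hh i (by simpa using h3)), hs _ (hh j (by simpa using h4))] at this
      exact hi i j this
  have neg : ∀ t : Finset V, G.IsIndepSet t → t.Nonempty → dif G t < 0 := fun t ht ⟨w, hw⟩ => by
    have c1 := F0 t ht
    have c2 := cge (insert w (univ.filter fun v => ∃ x ∈ t, G.Adj v x)) 4 (k + 5) (fun i hi => by simp [In]; omega)
      fun u hu => by
        by_cases n : u = w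
        · simp [n]
        · refine mem_insert_of_mem (mem_filter.2 ⟨mem_univ _, w, hw, (hA u w).2 ⟨n, ?_⟩⟩)
          simp only [R]; omega
    have c3 := card_insert_le w (univ.filter fun v => ∃ x ∈ t, G.Adj v x)
    simp only [dif]
    convert (show (t.card : ℤ) - (univ.filter fun v => ∃ x ∈ t, G.Adj v x).card < 0 by omega)
  have d0 : dif G ∅ = 0 := by simp [dif]
  have cr : ∀ t, Crit G t ↔ t = ∅ := fun t => ⟨fun h => by_contra fun n => by
      have := neg t h.1 (nonempty_iff_ne_empty.2 n)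
      have := h.2 ∅ (by simp)
      omega, by
    rintro rfl
    refine ⟨by simp, fun J hJ => ?_⟩
    rcases J.eq_empty_or_nonempty with rfl | n
    · rfl
    · have := neg J hJ n; omega⟩
  have nu : nucleus G = ∅ := Set.eq_empty_of_forall_notMem fun v hv => by
    simpa using hv ∅ ((cr _).2 rfl) fun J hJ => by simp [(cr J).1 hJ]
  rw [nu]
  have two : ∀ t t' : Finset V, G.IsMaximumIndepSet t → G.IsMaximumIndepSet t' → (∀ u ∈ t, u ∉ t') → core G = ∅ :=
    fun t t' h h' d => Set.eq_empty_of_forall_notMem fun v hv => d v (hv t h) (hv t' h')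
  by_cases P : IndepP (a, k) <;> rcases (by omega : b = 0 ∨ b = 1) with rfl | rfl
  · obtain ⟨t, h1, h2, h3⟩ := F1 P
    refine iff_of_true (by simp [P]) (two t _ ⟨h1, fun u hu => (F0 u hu).trans h3⟩
      ⟨F4 2 (.inl rfl), fun u hu => (F0 u hu).trans F5⟩ fun u hu h => ?_)
    have := h2 u hu; have := (mem_filter.1 h).2; omega
  · obtain ⟨t, h1, h2, h3⟩ := F1 P
    refine iff_of_false (by simp [P]) fun e => (Set.eq_empty_iff_forall_notMem.1 e) (s (1, 0, 0)) fun u hu => ?_
    have := hu.maximum t h1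
    by_cases h : ∀ v ∈ u, (g v).1 ≤ 1
    · exact ((F2 u hu.1 h).2 (by omega)).2
    · have := (F3 u hu.1 h).1; omega
  · refine iff_of_false (by simp [P]) fun e => (Set.eq_empty_iff_forall_notMem.1 e) (s (2, 0, 0)) fun u hu => ?_
    have c := hu.maximum _ (F4 2 (.inl rfl))
    by_cases h : ∀ v ∈ u, (g v).1 ≤ 1
    · exact absurd ((F2 u hu.1 h).2 (by omega)).1 P
    · have := eq_of_subset_of_card_le (s := u) (fun v hv => mem_filter.2 ⟨mem_univ v,
        (F3 u hu.1 h).2 rfl (by omega) v hv⟩) c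
      rw [this]
      exact mem_filter.2 ⟨mem_univ _, by rw [hs _ (by simp [In])]⟩
  · have F6 : k + 1 ≤ (univ.filter fun u => (g u).1 = 3).card :=
      cge _ 3 _ (fun i hi => by simp [In]; omega) (by simp)
    have F7 : ∀ t : Finset V, G.IsIndepSet t → t.card ≤ k + 1 := fun t ht => by
      by_cases h : ∀ u ∈ t, (g u).1 ≤ 1
      · exact by_contra fun n => P ((F2 t ht h).2 (by omega)).1
      · have := (F3 t ht h).1; omega
    refine iff_of_true (by simp [P]) (two _ _ ⟨F4 2 (.inl rfl), fun u hu => (F7 u hu).trans F5⟩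
      ⟨F4 3 (.inr rfl), fun u hu => (F7 u hu).trans F6⟩ fun u hu h => ?_)
    have := (mem_filter.1 hu).2; have := (mem_filter.1 h).2; omega

theorem key (b : ℕ) (hb : b ≤ 1) (a : Gr × ℕ) : (IndepP a ↔ b = 0) ↔ core (gr b a).G = nucleus (gr b a).G := by
  rw [← main a.1 (min a.2 (a.1.n + 1)) b hb (gr b a).G (relNm _ _) (relNm_inj _ _)
    (fun p => mem_vs.symm.trans (relNm_range _ _ p)) fun u v => (relGr_adj _ _ u v).trans
      (and_congr (relNm_inj _ _).ne_iff (by simpa using fun h => R_symm h))]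
  refine iff_congr (exists_congr fun s => and_congr_right fun _ => ?_) Iff.rfl
  have := s.card_le_univ
  simp only [Fintype.card_fin] at this ⊢
  omega

set_option synthInstance.maxSize 2000 in
theorem pt (b : ℕ) : PT (gr b) := by unfold gr relGr vs In R; fun_prop

theorem hard : (NPHard fun a : Gr => core a.G = nucleus a.G) ∧ NPHard fun a : Gr => core a.G ≠ nucleus a.G :=
  ⟨indep_hard.red ⟨gr 0, pt 0, fun a => by simpa using key 0 (by omega) a⟩,
    indep_hard.red ⟨gr 1, pt 1, fun a => by have := key 1 le_rfl a; simp only [ne_eq, ← this]; simp⟩⟩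

end Pool.Agent.H.MP_54ee58_lc
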