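import Pool.Agent.Lib.lead.CXGraph

namespace Pool.Agent.H.MP_54ee58_lc

variable {V : Type} [Fintype V]

/-- the intersection of all maximum independent sets -/
def core (G : SimpleGraph V) : Set V := {v | ∀ s : Finset V, G.IsMaximumIndepSet s → v ∈ s}

open Classical in
/-- `d(X) = |X| - |N(X)|` -/
noncomputable def dif (G : SimpleGraph V) (X : Finset V) : ℤ :=
  (X.card : ℤ) - (Finset.univ.filter fun v => ∃ x ∈ X, G.Adj v x).card

/-- critical independent set -/
def Crit (G : SimpleGraph V) (I : Finset V) : Prop :=
  G.IsIndepSet I ∧ ∀ J : Finset V, G.IsIndepSet J → dif G J ≤ dif G I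

/-- the intersection of all maximum critical independent sets -/
def nucleus (G : SimpleGraph V) : Set V :=
  {v | ∀ I : Finset V, Crit G I → (∀ J, Crit G J → J.card ≤ I.card) → v ∈ I}

end Pool.Agent.H.MP_54ee58_lc
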